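import Pool.Agent.Helper61.LN.Goals

/-!
# PROJECT LN, packet KP
-/

set_option autoImplicit false

namespace Pool.Agent.Helper73.LN.KP

open Pool.Agent.Helper31.Sk Pool.Agent.Helper61.LN

/-- orientations of one piece, on functions -/
def opO (i : ℕ) : Gen → ((ℕ → ZMod 2) → ℕ) → (ℕ → ZMod 2) → ℕ
  | .cup, φ, x => φ (insF i 1 0 x) + φ (insF i 0 1 x)
  | .cap, φ, x => if x i = x (i + 1) then 0 else φ (delF i x)
  | .pos, φ, x => φ (setF i (x (i + 1)) (x i) x)
  | .neg, φ, x => φ (setF i (x (i + 1)) (x i) x)

/-- orientations, on functions -/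
def oF : Word → (ℕ → ZMod 2) → ℕ
  | [], _ => 1
  | (i, g) :: w, x => opO i g (oF w) x

/-- a list as a function -/
def toF (l : List Bool) : ℕ → ZMod 2 := fun j => if l.getD j false then 1 else 0

/-- put a label in front -/
def consF (a : ZMod 2) (x : ℕ → ZMod 2) : ℕ → ZMod 2 := fun j => if j = 0 then a else x (j - 1)

theorem toF_cons (b : Bool) (l : List Bool) : toF (b :: l) = consF (if b then 1 else 0) (toF l) := by
  funext j
  cases j with
  | zero => simp [toF, consF]
  | succ j => simp [toF, consF]

theorem insF_cons (i : ℕ) (a b c : ZMod 2) (x : ℕ → ZMod 2) :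
    insF (i + 1) a b (consF c x) = consF c (insF i a b x) := by
  funext j
  simp only [insF, consF]
  rcases j with _ | j
  · simp
  · simp only [Nat.add_lt_add_iff_right, Nat.succ_ne_zero, if_false, Nat.add_right_cancel_iff,
      Nat.add_sub_cancel]
    by_cases h1 : j < i
    · simp [h1]
    · by_cases h2 : j = i
      · simp [h2]
      · by_cases h3 : j = i + 1
        · simp [h3]
        · have h4 : j - 1 ≠ 0 := by omega
          have h5 : j - 1 - 1 = j - 2 := by omega
          simp [h1, h2, h3, h4, h5]

theorem delF_cons (i : ℕ) (c : ZMod 2) (x : ℕ → ZMod 2) :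
    delF (i + 1) (consF c x) = consF c (delF i x) := by
  funext j
  simp only [delF, consF]
  rcases j with _ | j
  · simp
  · by_cases h1 : j < i
    · simp [h1]
    · simp [h1]

theorem setF_cons (i : ℕ) (a b c : ZMod 2) (x : ℕ → ZMod 2) :
    setF (i + 1) a b (consF c x) = consF c (setF i a b x) := by
  funext j
  simp only [setF, consF]
  rcases j with _ | j
  · simp
  · by_cases h1 : j = i
    · simp [h1]
    · by_cases h2 : j = i + 1
      · simp [h2]
      · simp [h1, h2]

theorem opO_cons (i : ℕ) (g : Gen) (ψ : (ℕ → ZMod 2) → ℕ) (c : ZMod 2) (x : ℕ → ZMod 2) :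
    opO (i + 1) g ψ (consF c x) = opO i g (fun y => ψ (consF c y)) x := by
  cases g <;> simp [opO, insF_cons, delF_cons, setF_cons, consF]

theorem passes_sum (i : ℕ) : ∀ (g : Gen) (φ : List Bool → ℕ) (ψ : (ℕ → ZMod 2) → ℕ)
    (l : List Bool), i + g.src ≤ l.length →
    (∀ l' : List Bool, l'.length = l.length - g.src + g.tgt → φ l' = ψ (toF l')) →
    ((passes i g l).map φ).sum = opO i g ψ (toF l) := by
  induction i with
  | zero =>
    intro g φ ψ l hl h
    cases g
    · have e1 : toF (true :: false :: l) = insF 0 1 0 (toF l) := by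
        funext j
        rcases j with _ | _ | j <;> simp [toF, insF]
      have e2 : toF (false :: true :: l) = insF 0 0 1 (toF l) := by
        funext j
        rcases j with _ | _ | j <;> simp [toF, insF]
      have h1 := h (true :: false :: l) (by simp [Gen.src, Gen.tgt])
      have h2 := h (false :: true :: l) (by simp [Gen.src, Gen.tgt])
      simp [passes, opO, h1, h2, e1, e2]
    · rcases l with _ | ⟨x, _ | ⟨y, l⟩⟩
      · simp [Gen.src] at hl
      · simp [Gen.src] at hl
      have e1 : toF l = delF 0 (toF (x :: y :: l)) := by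
        funext j
        simp [toF, delF]
      have h1 := h l (by simp [Gen.src, Gen.tgt])
      by_cases hxy : x = y
      · subst hxy
        simp [passes, opO, toF]
      · have e2 : ¬ (toF (x :: y :: l) 0 = toF (x :: y :: l) 1) := by
          cases x <;> cases y <;> simp_all [toF]
        simp only [passes, if_neg hxy, opO, zero_add, if_neg e2, ← e1]
        simp [h1]
    · rcases l with _ | ⟨x, _ | ⟨y, l⟩⟩
      · simp [Gen.src] at hl
      · simp [Gen.src] at hl
      have e1 : toF (y :: x :: l) = setF 0 (toF (x :: y :: l) 1) (toF (x :: y :: l) 0)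
          (toF (x :: y :: l)) := by
        funext j
        rcases j with _ | _ | j <;> simp [toF, setF]
      have h1 := h (y :: x :: l) (by simp [Gen.src, Gen.tgt])
      simp only [passes, opO, zero_add, ← e1]
      simp [h1]
    · rcases l with _ | ⟨x, _ | ⟨y, l⟩⟩
      · simp [Gen.src] at hl
      · simp [Gen.src] at hl
      have e1 : toF (y :: x :: l) = setF 0 (toF (x :: y :: l) 1) (toF (x :: y :: l) 0)
          (toF (x :: y :: l)) := by
        funext j
        rcases j with _ | _ | j <;> simp [toF, setF]
      have h1 := h (y :: x :: l) (by simp [Gen.src, Gen.tgt])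
      simp only [passes, opO, zero_add, ← e1]
      simp [h1]
  | succ i ih =>
    intro g φ ψ l hl h
    rcases l with _ | ⟨x, l⟩
    · simp only [List.length_nil] at hl
      omega
    have e : passes (i + 1) g (x :: l) = (passes i g l).map (x :: ·) := by
      cases g <;> simp [passes]
    rw [e, List.map_map, toF_cons, opO_cons]
    have hl' : i + g.src ≤ l.length := by
      simp only [List.length_cons] at hl
      omega
    apply ih g _ _ l hl'
    intro l' hl''
    have := h (x :: l') (by simp only [List.length_cons, hl'']; omega)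
    rw [Function.comp_apply, this, toF_cons]

theorem orients_eq (w : Word) : ∀ (m n : ℕ), Legal m w n → ∀ l : List Bool, l.length = m →
    orients w l = oF w (toF l) := by
  induction w with
  | nil => intro m n _ l _; rfl
  | cons s w ih =>
    intro m n h l hl
    obtain ⟨i, g⟩ := s
    obtain ⟨h1, h2⟩ := h
    show ((passes i g l).map (orients w)).sum = opO i g (oF w) (toF l)
    apply passes_sum i g _ _ l (by omega)
    intro l' hl'
    exact ih _ _ h2 l' (by rw [hl', hl])

theorem two (a : ZMod 2) : a + a = 0 := CharTwo.add_self_eq_zero a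

theorem insF_add (i : ℕ) (a b c d : ZMod 2) (x y : ℕ → ZMod 2) :
    insF i a b x + insF i c d y = insF i (a + c) (b + d) (x + y) := by
  funext j
  simp only [insF, Pi.add_apply]
  split_ifs <;> rfl

theorem delF_add (i : ℕ) (x y : ℕ → ZMod 2) : delF i x + delF i y = delF i (x + y) := by
  funext j
  simp only [delF, Pi.add_apply]
  split_ifs <;> rfl

theorem setF_add (i : ℕ) (a b c d : ZMod 2) (x y : ℕ → ZMod 2) :
    setF i a b x + setF i c d y = setF i (a + c) (b + d) (x + y) := by
  funext j
  simp only [setF, Pi.add_apply]
  split_ifs <;> rfl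

theorem main (w : Word) : ∀ (a s : ℕ → ZMod 2), oF w a ≠ 0 → oF w (a + s) = e2 w s := by
  induction w with
  | nil => intro a s _; rfl
  | cons p w ih =>
    intro a s ha
    obtain ⟨i, g⟩ := p
    have he : e2 ((i, g) :: w) s = op i g (e2 w) s := rfl
    rw [he]
    change opO i g (oF w) a ≠ 0 at ha
    change opO i g (oF w) (a + s) = _
    cases g
    · simp only [opO, op] at ha ⊢
      have hs : (∑ c : ZMod 2, e2 w (insF i c c s)) = e2 w (insF i 0 0 s) + e2 w (insF i 1 1 s) := by
        exact Fin.sum_univ_two _
      rw [hs]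
      have hor : oF w (insF i 1 0 a) ≠ 0 ∨ oF w (insF i 0 1 a) ≠ 0 := by omega
      rcases hor with h | h
      · have i1 := ih _ (insF i 0 0 s) h
        have i2 := ih _ (insF i 1 1 s) h
        rw [insF_add] at i1 i2
        rw [two] at i2
        simp only [add_zero, zero_add] at i1 i2
        rw [i1, i2]
      · have i1 := ih _ (insF i 0 0 s) h
        have i2 := ih _ (insF i 1 1 s) h
        rw [insF_add] at i1 i2
        rw [two] at i2
        simp only [add_zero, zero_add] at i1 i2
        rw [i1, i2, add_comm]
    · simp only [opO, op] at ha ⊢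
      by_cases h1 : a i = a (i + 1)
      · simp [h1] at ha
      rw [if_neg h1] at ha
      have i1 := ih _ (delF i s) ha
      rw [delF_add] at i1
      have key : ∀ u v x y : ZMod 2, u ≠ v → (u + x = v + y ↔ ¬ x = y) := by decide
      have k := key _ _ (s i) (s (i + 1)) h1
      simp only [Pi.add_apply]
      by_cases h2 : s i = s (i + 1)
      · rw [if_neg (by rw [k]; exact not_not.mpr h2), if_pos h2, i1]
      · rw [if_pos (k.mpr h2), if_neg h2]
    · simp only [opO, op] at ha ⊢
      have i1 := ih _ (setF i (s i + s i - s (i + 1)) (s i) s) ha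
      rw [setF_add] at i1
      rw [← i1]
      have k : s i + s i - s (i + 1) = s (i + 1) := by
        have : ∀ u v : ZMod 2, u + u - v = v := by decide
        exact this _ _
      rw [k]
      rfl
    · simp only [opO, op] at ha ⊢
      have i1 := ih _ (setF i (s (i + 1)) (s (i + 1) + s (i + 1) - s i) s) ha
      rw [setF_add] at i1
      rw [← i1]
      have k : s (i + 1) + s (i + 1) - s i = s i := by
        have : ∀ u v : ZMod 2, u + u - v = v := by decide
        exact this _ _
      rw [k]
      rfl

theorem t : S_KP := by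
  intro w hw
  obtain ⟨h1, h2⟩ := hw
  have e1 := orients_eq w 0 0 h1 [] rfl
  have e0 : toF [] = 0 := by
    funext j
    simp [toF]
  rw [h2, e0] at e1
  have e2' := main w 0 0 (by omega)
  rw [add_zero] at e2'
  rw [← e2', ← e1]

end Pool.Agent.Helper73.LN.KP
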