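import Pool.Agent.Helper64.LN.GoalsB

set_option autoImplicit false

/-! Project LN, packet F4. -/

open Topology Filter Set Metric UpperHalfPlane
open scoped MatrixGroups
open Pool.Agent.Helper64 Pool.Agent.Helper64.LN

namespace Pool.Agent.Helper73.LN

lemma coe_sl (g : SL(2, ℝ)) (z : ℍ) :
    ((g • z : ℍ) : ℂ) = ((g 0 0 : ℂ) * z + (g 0 1 : ℂ)) / ((g 1 0 : ℂ) * z + (g 1 1 : ℂ)) := by
  rw [coe_specialLinearGroup_apply]
  rfl

lemma T1_vadd (z : ℍ) : PQ.T1 • z = (1 : ℝ) +ᵥ z := by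
  apply UpperHalfPlane.ext
  rw [coe_sl, UpperHalfPlane.coe_vadd]
  have h1 : PQ.T1 0 0 = 1 := rfl
  have h2 : PQ.T1 0 1 = 1 := rfl
  have h3 : PQ.T1 1 0 = 0 := rfl
  have h4 : PQ.T1 1 1 = 1 := rfl
  rw [h1, h2, h3, h4]
  push_cast
  ring

/-- the horocycle -/
noncomputable def hor (A : SL(2, ℝ)) (ζ : ℍ) : C(ℝ, ℍ) where
  toFun t := A • (t +ᵥ ζ)
  continuous_toFun := by
    refine Continuous.const_smul ?_ A
    rw [UpperHalfPlane.isEmbedding_coe.continuous_iff]
    have : (UpperHalfPlane.coe ∘ fun t : ℝ => (t +ᵥ ζ : ℍ)) = fun t : ℝ => (t : ℂ) + ζ := by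
      funext t
      exact UpperHalfPlane.coe_vadd t ζ
    rw [this]
    fun_prop

lemma hor_apply (A : SL(2, ℝ)) (ζ : ℍ) (t : ℝ) : hor A ζ t = A • (t +ᵥ ζ) := rfl

lemma piA_apply (A : SL(2, ℝ)) (z : ℍ) : piA A (A • z) = A • ((1 : ℝ) +ᵥ z) := by
  rw [piA, mh_apply, mul_smul, inv_smul_smul, mul_smul, T1_vadd]

lemma hor_per (A : SL(2, ℝ)) (ζ : ℍ) (t : ℝ) : hor A ζ (t + 1) = piA A (hor A ζ t) := by
  rw [hor_apply, hor_apply, piA_apply, vadd_vadd, add_comm]

/-- a hyperbolic and a parabolic element do not commute -/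
lemma nc_par (c B : SL(2, ℝ)) (hc : 2 < |c 0 0 + c 1 1|) :
    Nc (mh c) (mh (B * PQ.T1 * B⁻¹)) := by
  intro hcom
  rw [← map_mul, ← map_mul, mh_eq_iff] at hcom
  set c' : SL(2, ℝ) := B⁻¹ * c * B with hc'
  have htr : c' 0 0 + c' 1 1 = c 0 0 + c 1 1 := by
    have hdet := B.det_coe
    rw [Matrix.det_fin_two] at hdet
    rw [hc']
    simp only [Matrix.SpecialLinearGroup.coe_mul, Matrix.SpecialLinearGroup.coe_inv,
      Matrix.adjugate_fin_two, Matrix.mul_apply, Fin.sum_univ_two, Matrix.of_apply,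
      Matrix.cons_val', Matrix.cons_val_zero, Matrix.cons_val_one, Matrix.cons_val_fin_one]
    linear_combination (c 0 0 + c 1 1) * hdet
  have hdet' := c'.det_coe
  rw [Matrix.det_fin_two] at hdet'
  have t00 : PQ.T1 0 0 = 1 := rfl
  have t01 : PQ.T1 0 1 = 1 := rfl
  have t10 : PQ.T1 1 0 = 0 := rfl
  have t11 : PQ.T1 1 1 = 1 := rfl
  have key : ∀ M N : SL(2, ℝ), ∀ i j, (M * N) i j = M i 0 * N 0 j + M i 1 * N 1 j := by
    intro M N i j
    rw [Matrix.SpecialLinearGroup.coe_mul, Matrix.mul_apply, Fin.sum_univ_two]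
  rcases hcom with h | h
  · have e : c' * PQ.T1 = PQ.T1 * c' := by
      have h2 : B⁻¹ * (c * (B * PQ.T1 * B⁻¹)) * B = B⁻¹ * (B * PQ.T1 * B⁻¹ * c) * B := by rw [h]
      have h3 : B⁻¹ * (c * (B * PQ.T1 * B⁻¹)) * B = c' * PQ.T1 := by rw [hc']; group
      have h4 : B⁻¹ * (B * PQ.T1 * B⁻¹ * c) * B = PQ.T1 * c' := by rw [hc']; group
      rw [← h3, h2, h4]
    have e0 := congrArg (fun M : SL(2, ℝ) => M 0 0) e
    have e1 := congrArg (fun M : SL(2, ℝ) => M 0 1) e
    simp only [key, t00, t01, t10, t11] at e0 e1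
    have f0 : c' 1 0 = 0 := by linarith
    have f1 : c' 0 0 = c' 1 1 := by linarith
    rw [f0, ← f1] at hdet'
    rw [← htr, ← f1] at hc
    have : c' 0 0 ^ 2 = 1 := by nlinarith
    have h5 : |c' 0 0| = 1 := by
      rw [← sq_eq_sq₀ (abs_nonneg _) zero_le_one, sq_abs, this, one_pow]
    have h6 : |c' 0 0 + c' 0 0| = 2 := by
      rw [← two_mul, abs_mul, h5]
      norm_num
    rw [h6] at hc
    exact lt_irrefl _ hc
  · have e : c' * PQ.T1 = -(PQ.T1 * c') := by
      have h2 : B⁻¹ * (c * (B * PQ.T1 * B⁻¹)) * B = B⁻¹ * (-(B * PQ.T1 * B⁻¹ * c)) * B := by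
        rw [h]
      have h3 : B⁻¹ * (c * (B * PQ.T1 * B⁻¹)) * B = c' * PQ.T1 := by rw [hc']; group
      have h4 : B⁻¹ * (B * PQ.T1 * B⁻¹ * c) * B = PQ.T1 * c' := by rw [hc']; group
      rw [← h3, h2, mul_neg, neg_mul, h4]
    have hneg : ∀ (M : SL(2, ℝ)) (i j), (-M) i j = -(M i j) := fun _ _ _ => rfl
    have e0 := congrArg (fun M : SL(2, ℝ) => M 0 0) e
    have e1 := congrArg (fun M : SL(2, ℝ) => M 0 1) e
    have e2 := congrArg (fun M : SL(2, ℝ) => M 1 0) e
    simp only [hneg, key, t00, t01, t10, t11] at e0 e1 e2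
    have f0 : c' 1 0 = 0 := by linarith
    have f1 : c' 0 0 = 0 := by linarith
    rw [f0, f1] at hdet'
    norm_num at hdet'

section
variable {X : Type*} [TopologicalSpace X]

lemma Uni.cont {B : Set X} {u : ℍ → X} (hu : Uni B u) : Continuous u := by
  have h := hu.cov.continuousOn
  have e : u ⁻¹' Bᶜ = univ := by
    rw [← hu.range]
    exact eq_univ_of_forall fun z => ⟨z, rfl⟩
  rw [e] at h
  exact continuousOn_univ.1 h

omit [TopologicalSpace X] in
lemma hy_of_cr (hc3 : GoalCR3) {u : ℍ → X} (hG : Good (PQ.deckG u)) {a e : ℍ ≃ₜ ℍ}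
    (ha : a ∈ deck u) (he : e ∈ deck u) (h : Cr Sp a e) :
    ∃ g ∈ PQ.deckG u, a = mh g ∧ 2 < |g 0 0 + g 1 1| := by
  obtain ⟨g, hg, rfl⟩ := ha
  obtain ⟨d, hd, rfl⟩ := he
  exact ⟨g, hg, rfl, (hc3 _ hG g hg d hd h).1⟩

end

theorem goalF4.{v} (h0 : GoalG0.{v}) (h2 : GoalG2) (hc3 : GoalCR3) (hpre : GoalPRE.{v})
    (hreg : GoalREG.{v}) (hsz : GoalSZ) (hcu : GoalCU1.{v}) : GoalF4.{v} := by
  intro X _ _ p P u C K γ ω W A ζ hC hB h hh hsp
  have hG : Good (PQ.deckG u) := h0 X (insert p P) u hC.uni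
  have hdef : deck u = (PQ.deckG u).map mh := rfl
  obtain ⟨hπ, hπ1, hπ2⟩ := hcu X p (insert p P) u A hC.uni (mem_insert p P) hB.cusp
  obtain ⟨-, hpre'⟩ := hpre X p P u C K γ ω hC
  have hreg' := hreg X p P u C K γ ω hC
  have hKc : IsClosed K := hC.comp.isClosed
  have hucont : Continuous u := Uni.cont hC.uni
  obtain ⟨e, he, hce⟩ := hC.hp
  -- conjugates of `γ` are hyperbolic
  have hhy : ∀ g ∈ deck u, ∃ c ∈ PQ.deckG u, g * γ * g⁻¹ = mh c ∧ 2 < |c 0 0 + c 1 1| := by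
    intro g hg
    have h1 : Cr Sp (g * γ * g⁻¹) (g * e * g⁻¹) := (Cr_conj_iff g γ e).2 hce
    exact hy_of_cr hc3 hG ((deck u).mul_mem ((deck u).mul_mem hg hC.deck) ((deck u).inv_mem hg))
      ((deck u).mul_mem ((deck u).mul_mem hg he) ((deck u).inv_mem hg)) h1
  have hhy' : ∀ g ∈ deck u, hy (g * γ * g⁻¹) := by
    intro g hg
    obtain ⟨c, -, e1, e2⟩ := hhy g hg
    exact ⟨c, e1, e2⟩
  have hlamD : ∀ g ∈ deck u, g * γ * g⁻¹ ∈ deck u := fun g hg =>
    (deck u).mul_mem ((deck u).mul_mem hg hC.deck) ((deck u).inv_mem hg)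
  have hπhD : ∀ k ∈ deck u, k * piA A * k⁻¹ ∈ deck u := fun k hk =>
    (deck u).mul_mem ((deck u).mul_mem hk hπ) ((deck u).inv_mem hk)
  -- they do not commute with conjugates of `π`
  have hncπ : ∀ g ∈ deck u, ∀ k ∈ deck u, Nc (g * γ * g⁻¹) (k * piA A * k⁻¹) := by
    intro g hg k hk
    obtain ⟨c, -, e1, e2⟩ := hhy g hg
    obtain ⟨k0, -, rfl⟩ := hk
    have e3 : (mh k0 : ℍ ≃ₜ ℍ) * piA A * (mh k0)⁻¹ =
        mh ((k0 * A) * PQ.T1 * (k0 * A)⁻¹) := by
      rw [piA, ← map_inv, ← map_mul, ← map_mul]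
      congr 1
      group
    rw [e1]
    change Nc (mh c) (mh k0 * piA A * (mh k0)⁻¹)
    rw [e3]
    exact nc_par c (k0 * A) e2
  have e1 : (1 : ℍ ≃ₜ ℍ) * γ * 1⁻¹ = γ := by simp
  have e1' : (1 : ℍ ≃ₜ ℍ) * piA A * 1⁻¹ = piA A := by simp
  have h1D : (1 : ℍ ≃ₜ ℍ) ∈ deck u := (deck u).one_mem
  -- images of points
  have hfr : ∀ x, x ∈ interior K → x ∉ C '' sphere (0 : ℂ) 1 := by
    intro x hx hx'
    rw [← hC.fr] at hx'
    exact hx'.2 hx
  have hfr' : ∀ x, x ∉ K → x ∉ C '' sphere (0 : ℂ) 1 := by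
    intro x hx hx'
    rw [← hC.fr] at hx'
    exact hx (hKc.frontier_subset hx')
  have hax : ∀ g ∈ deck u, ∀ z, u z ∉ C '' sphere (0 : ℂ) 1 → z ∉ ax (g * γ * g⁻¹) := by
    intro g hg z hz hz'
    exact hz ((hpre' z).2 ⟨g, hg, hz'⟩)
  -- the curves
  have hσK : ∀ t, u (hor A ζ t) ∈ interior K := by
    intro t
    rw [hor_apply]
    refine hB.inK _ ?_
    rw [UpperHalfPlane.vadd_im]
  set σ' : C(ℝ, ℍ) := ⟨fun t => h (hor A ζ t), h.continuous.comp (hor A ζ).continuous⟩ with hσ'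
  have hσ'a : ∀ t, σ' t = h (hor A ζ t) := fun _ => rfl
  have hσ'per : ∀ t, σ' (t + 1) = (h * piA A * h⁻¹) (σ' t) := by
    intro t
    rw [hσ'a, hσ'a, hor_per]
    change h (piA A (hor A ζ t)) = h (piA A (h.symm (h (hor A ζ t))))
    rw [h.symm_apply_apply]
  have hσ'K : ∀ t, u (σ' t) ∈ interior K := by
    intro t
    rw [hσ'a, deck_apply hh]
    exact hσK t
  have hmem32 : (3 / 2 : ℝ) ∈ Ioo (1 / 2 : ℝ) 2 := by constructor <;> norm_num
  set η : C(ℝ, ℍ) := ⟨fun t => W t (3 / 2), by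
    have h3 : ContinuousOn (fun t : ℝ => ((t, (3 / 2 : ℝ)) : ℝ × ℝ)) univ := by fun_prop
    have h4 := hB.cont.comp h3 (fun t _ => ⟨mem_univ t, hmem32⟩)
    exact continuousOn_univ.1 h4⟩ with hη
  have hηa : ∀ t, η t = W t (3 / 2) := fun _ => rfl
  have hηper : ∀ t, η (t + 1) = γ (η t) := fun t => hB.per t (3 / 2) hmem32
  have hηK : ∀ t, u (η t) ∉ K := by
    intro t
    rw [hηa, hB.lift t (3 / 2) hmem32]
    have hnorm : ‖((3 / 2 : ℝ) : ℂ) * Complex.exp (2 * Real.pi * Complex.I * t)‖ = 3 / 2 := by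
      rw [norm_mul]
      have : ‖Complex.exp (2 * Real.pi * Complex.I * t)‖ = 1 := by
        rw [show (2 * Real.pi * Complex.I * t : ℂ) = ((2 * Real.pi * t : ℝ) : ℂ) * Complex.I by
          push_cast; ring]
        exact Complex.norm_exp_ofReal_mul_I _
      rw [this, Complex.norm_real]
      norm_num
    intro hK
    have hs : ((3 / 2 : ℝ) : ℂ) * Complex.exp (2 * Real.pi * Complex.I * t) ∈ C.source := by
      rw [hC.src]
      change 1 / 2 < ‖_‖ ∧ ‖_‖ < 2
      rw [hnorm]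
      norm_num
    have := (hC.col _ hs).1 hK
    rw [hnorm] at this
    norm_num at this
  -- a separating conjugate
  have hex : ∃ g ∈ deck u, Sz (g * γ * g⁻¹) (σ' 0) (η 0) := by
    by_contra hcon
    push Not at hcon
    obtain ⟨s, hs0, hs1, hs⟩ := (hreg' (σ' 0) (η 0) (hfr _ (hσ'K 0)) (hfr' _ (hηK 0))).1 hcon
    have hpc : IsPreconnected (range fun t => u (s t)) :=
      isPreconnected_range (hucont.comp s.continuous)
    have hsub : (range fun t => u (s t)) ⊆ interior K ∪ Kᶜ := by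
      rintro _ ⟨t, rfl⟩
      by_contra hcon2
      rw [mem_union, not_or, mem_compl_iff, not_not] at hcon2
      refine hs t ?_
      rw [← hC.fr]
      exact ⟨subset_closure hcon2.2, hcon2.1⟩
    have hdis : Disjoint (interior K) Kᶜ := by
      rw [disjoint_left]
      intro x hx hx'
      exact hx' (interior_subset hx)
    rcases IsPreconnected.subset_or_subset isOpen_interior hKc.isOpen_compl hdis hsub hpc with
      h5 | h5
    · have h6 : u (s 1) ∈ K := interior_subset (h5 ⟨1, rfl⟩)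
      rw [hs1] at h6
      exact hηK 0 h6
    · have h6 : u (s 0) ∈ Kᶜ := h5 ⟨0, rfl⟩
      rw [hs0] at h6
      exact h6 (interior_subset (hσ'K 0))
  obtain ⟨g, hg, hsz0⟩ := hex
  have hnc : Nc (g * γ * g⁻¹) γ := by
    intro hcom
    have hγ1 : γ ≠ 1 := by
      intro h1
      obtain ⟨c, -, e2, -⟩ := hhy 1 h1D
      have := hncπ 1 h1D 1 h1D
      rw [e1, e1', h1] at this
      apply this
      simp
    have hgγ := (h2 _ hG).2.2 g hg γ hC.deck hγ1 hcom
    have hlam : g * γ * g⁻¹ = γ := by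
      rw [hgγ]
      group
    rw [hlam] at hsz0
    -- the sides
    obtain ⟨γ0, -, e2, -⟩ := hhy 1 h1D
    rw [e1] at e2
    have hside := hB.sides 0 0 (3 / 4) (by constructor <;> norm_num) (3 / 2)
      (by constructor <;> norm_num)
    have hnear := hB.near 1 h1D
    rw [e1] at hnear
    have hA0 : hor A ζ 0 = A • ζ := by
      rw [hor_apply, zero_vadd]
    have hna : A • ζ ∉ ax γ := by
      have := hax 1 h1D (A • ζ) (hfr _ (by rw [← hA0]; exact hσK 0))
      rwa [e1] at this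
    have hSzAB : ¬ Sz γ (σ' 0) (A • ζ) := by
      rw [e2] at hsz0 hside hnear hna ⊢
      rw [hηa] at hsz0
      rw [Sz_mh] at hsz0 hside hnear ⊢
      rw [ax_mh] at hna
      rcases lt_or_gt_of_ne hna with h7 | h7
      · -- negative
        have h8 : sf γ0 (W 0 (3 / 4)) < 0 := by
          by_contra h9
          rcases eq_or_lt_of_le (not_lt.1 h9) with h10 | h10
          · rw [← h10] at hside
            simp at hside
          · exact hnear (mul_neg_of_neg_of_pos h7 h10)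
        have h9 : 0 < sf γ0 (W 0 (3 / 2)) := by
          by_contra h10
          exact absurd hside (not_lt.2 (mul_nonneg_of_nonpos_of_nonpos h8.le (not_lt.1 h10)))
        have h10 : sf γ0 (σ' 0) < 0 := by
          by_contra h11
          exact absurd hsz0 (not_lt.2 (mul_nonneg (not_lt.1 h11) h9.le))
        exact not_lt.2 (mul_nonneg_of_nonpos_of_nonpos h10.le h7.le)
      · have h8 : 0 < sf γ0 (W 0 (3 / 4)) := by
          by_contra h9
          rcases eq_or_lt_of_le (not_lt.1 h9) with h10 | h10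
          · rw [h10] at hside
            simp at hside
          · exact hnear (mul_neg_of_pos_of_neg h7 h10)
        have h9 : sf γ0 (W 0 (3 / 2)) < 0 := by
          by_contra h10
          exact absurd hside (not_lt.2 (mul_nonneg h8.le (not_lt.1 h10)))
        have h10 : 0 < sf γ0 (σ' 0) := by
          by_contra h11
          exact absurd hsz0 (not_lt.2 (mul_nonneg_of_nonpos_of_nonpos (not_lt.1 h11) h9.le))
        exact not_lt.2 (mul_nonneg h10.le h7.le)
    have hncγ1 : Nc γ (h * piA A * h⁻¹) := by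
      have := hncπ 1 h1D h hh
      rwa [e1] at this
    have hncγ2 : Nc γ (piA A) := by
      have := hncπ 1 h1D 1 h1D
      rwa [e1, e1'] at this
    have hhyγ : hy γ := by
      have := hhy' 1 h1D
      rwa [e1] at this
    have h12 := (hsz _ hG γ hC.deck (h * piA A * h⁻¹) (hπhD h hh) (piA A) hπ hhyγ hncγ1 hncγ2 σ'
      (hor A ζ) hσ'per (hor_per A ζ)
      (fun t => by
        have := hax 1 h1D _ (hfr _ (hσ'K t))
        rwa [e1] at this)
      (fun t => by
        have := hax 1 h1D _ (hfr _ (hσK t))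
        rwa [e1] at this) 0 0).1 hsp
    rw [hA0] at h12
    exact hSzAB h12
  refine ⟨g, hg, hnc, ?_⟩
  exact (hsz _ hG (g * γ * g⁻¹) (hlamD g hg) (h * piA A * h⁻¹) (hπhD h hh) γ hC.deck (hhy' g hg)
    (hncπ g hg h hh) hnc σ' η hσ'per hηper (fun t => hax g hg _ (hfr _ (hσ'K t)))
    (fun t => hax g hg _ (hfr' _ (hηK t))) 0 0).2 hsz0

end Pool.Agent.Helper73.LN
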