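import Pool.Agent.Helper64.LN.GoalsA

set_option autoImplicit false

/-! Project LN, packet H7 (finiteness). -/

open Topology Filter Set Metric
open Pool.Agent.Helper64.LN

namespace Pool.Agent.Helper73.LN

section
variable {H : Type} [Group H] {D : Subgroup H} {Sp : H → H → H → Prop} {l r : H → H → ℝ}
  {sd : H → H → Prop}

theorem cr_conj (G : GF D Sp) {a b g : H} (hg : g ∈ D) (h : Cr Sp a b) :
    Cr Sp (g * a * g⁻¹) (g * b * g⁻¹) := by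
  have h1 := G.conj g hg a b b⁻¹ h
  have e : (g * b * g⁻¹)⁻¹ = g * b⁻¹ * g⁻¹ := by group
  unfold Cr
  rw [e]
  exact h1

theorem cr_inv (G : Geo D Sp l r sd) {a c : H} (ha : a ∈ D) (hc : c ∈ D) (h : Cr Sp a c⁻¹) :
    Cr Sp a c := by
  have hc' : c⁻¹ ∈ D := D.inv_mem hc
  have h1 := G.symm a ha c⁻¹ hc' h
  have hne : c ≠ 1 := by
    intro e
    have := G.comm a ha c⁻¹ hc' h
    apply this
    rw [e]
    simp
  exact G.symm c hc a ha (G.crcom c⁻¹ hc' a ha c hc h1 (by group) hne)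

theorem conj_mul (a b : H) (k : ℤ) :
    a * (a ^ k * b * (a ^ k)⁻¹) * a⁻¹ = a ^ (k + 1) * b * (a ^ (k + 1))⁻¹ := by
  rw [zpow_add, zpow_one]
  have : a ^ k * a = a * a ^ k := ((Commute.refl a).zpow_left k).eq
  rw [this]
  group

theorem cr_zpow (G : GF D Sp) {a b : H} (ha : a ∈ D) (h : Cr Sp a b) (k : ℤ) :
    Cr Sp a (a ^ k * b * (a ^ k)⁻¹) := by
  have h1 := cr_conj G (D.zpow_mem ha k) h
  have e : a ^ k * a * (a ^ k)⁻¹ = a := by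
    have : a ^ k * a = a * a ^ k := ((Commute.refl a).zpow_left k).eq
    rw [this]
    group
  rwa [e] at h1

theorem l_zpow (G : Geo D Sp l r sd) {a b : H} (ha : a ∈ D) (hb : b ∈ D) (h : Cr Sp a b)
    (k : ℤ) : l a (a ^ k * b * (a ^ k)⁻¹) = l a b + k := by
  have step : ∀ j : ℤ, l a (a ^ (j + 1) * b * (a ^ (j + 1))⁻¹) =
      l a (a ^ j * b * (a ^ j)⁻¹) + 1 := by
    intro j
    have hj : a ^ j ∈ D := D.zpow_mem ha j
    have h1 := (G.shift a ha (a ^ j * b * (a ^ j)⁻¹)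
      (D.mul_mem (D.mul_mem hj hb) (D.inv_mem hj)) (cr_zpow G.toGF ha h j)).1
    rw [conj_mul] at h1
    exact h1
  induction k using Int.induction_on with
  | zero => simp
  | succ i ih =>
    rw [step, ih]
    push_cast
    ring
  | pred i ih =>
    have h1 := step (-(i : ℤ) - 1)
    rw [sub_add_cancel, ih] at h1
    push_cast at h1 ⊢
    linarith

theorem fin_image (G : Geo D Sp l r sd) {c0 : H} (hc0 : c0 ∈ D) {F y : Set H} (hF : F.Finite)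
    (hyD : ∀ a ∈ y, a ∈ D)
    (hFy : ∀ L ∈ y, Cr Sp c0 L → ∃ k : ℤ, c0 ^ k * L * (c0 ^ k)⁻¹ ∈ F) :
    {L | L ∈ y ∧ Cr Sp c0 L ∧ ∃ f ∈ F, |l c0 L - l c0 f| < 6}.Finite := by
  obtain ⟨M, hM⟩ : ∃ M : ℕ, ∀ f ∈ F, |l c0 f| ≤ M := by
    obtain ⟨B, hB⟩ := (hF.image fun f => |l c0 f|).bddAbove
    obtain ⟨M, hM⟩ := exists_nat_ge B
    exact ⟨M, fun f hf => (hB ⟨f, hf, rfl⟩).trans hM⟩
  have hfin : (F ×ˢ (Icc (-(2 * (M : ℤ) + 6)) (2 * M + 6))).Finite := hF.prod (finite_Icc _ _)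
  refine (hfin.image fun p : H × ℤ => (c0 ^ p.2)⁻¹ * p.1 * c0 ^ p.2).subset ?_
  rintro L ⟨hL, hcr, f, hf, hlt⟩
  obtain ⟨k, hk⟩ := hFy L hL hcr
  refine ⟨(c0 ^ k * L * (c0 ^ k)⁻¹, k), ⟨hk, ?_⟩, by group⟩
  have h1 := l_zpow G hc0 (hyD L hL) hcr k
  have h2 := abs_le.1 (hM _ hk)
  have h3 := abs_le.1 (hM _ hf)
  have h4 := abs_lt.1 hlt
  rw [h1] at h2
  constructor
  · have : (-(2 * (M : ℝ) + 6)) ≤ k := by linarith
    exact_mod_cast this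
  · have : (k : ℝ) ≤ 2 * M + 6 := by linarith
    exact_mod_cast this

theorem class_eq {Y : Set (Set H)} (hY : Fam D Sp Y) {x x' : Set H} (hx : x ∈ Y) (hx' : x' ∈ Y)
    {a : H} (ha : a ∈ x) (ha' : a ∈ x') : x = x' := by
  have key : ∀ x ∈ Y, ∀ x' ∈ Y, a ∈ x → a ∈ x' → x ⊆ x' := by
    intro x hx x' hx' ha ha' w hw
    obtain ⟨g, hg, h | h⟩ := hY.cls x hx a ha w hw
    · rw [h]
      exact hY.conj x' hx' a ha' g hg
    · rw [h]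
      exact hY.conj x' hx' a⁻¹ (hY.inv x' hx' a ha') g hg
  exact Subset.antisymm (key x hx x' hx' ha ha') (key x' hx' x hx ha' ha)

end

theorem goalH7 (h1 : GoalH1) (h3 : GoalH3) (h6 : GoalH6) : GoalH7 := by
  intro H _ D Sp l r sd Y G hY y hy z hz
  obtain ⟨-, -, h1c⟩ := h1 H D Sp l r sd Y G hY
  obtain ⟨-, h3b, -⟩ := h3 H D Sp l r sd Y G hY
  have h6' := h6 H D Sp l r sd Y G hY
  by_cases hyz : y = z
  · have : {x | x ∈ Y ∧ x ≠ y ∧ x ≠ z ∧ 10 < dY Sp x y z} = ∅ := by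
      rw [eq_empty_iff_forall_notMem]
      rintro x ⟨hx, -, -, h⟩
      rw [← hyz] at h
      exact absurd (h3b x hx y hy) (not_le.2 h)
    rw [this]
    exact finite_empty
  obtain ⟨c0, hc0⟩ := hY.ne z hz
  obtain ⟨b0, hb0⟩ := hY.ne y hy
  have hc0D : c0 ∈ D := hY.sub z hz c0 hc0
  have hb0D : b0 ∈ D := hY.sub y hy b0 hb0
  obtain ⟨F1, hF1, hF1'⟩ := G.lfin c0 hc0D b0 hb0D
  obtain ⟨F2, hF2, hF2'⟩ := G.lfin c0 hc0D b0⁻¹ (D.inv_mem hb0D)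
  have hFy : ∀ L ∈ y, Cr Sp c0 L → ∃ k : ℤ, c0 ^ k * L * (c0 ^ k)⁻¹ ∈ F1 ∪ F2 := by
    intro L hL hcr
    obtain ⟨g, hg, h | h⟩ := hY.cls y hy b0 hb0 L hL
    · obtain ⟨k, hk⟩ := hF1' g hg (by rw [← h]; exact hcr)
      exact ⟨k, Or.inl (by rw [h]; exact hk)⟩
    · obtain ⟨k, hk⟩ := hF2' g hg (by rw [← h]; exact hcr)
      exact ⟨k, Or.inr (by rw [h]; exact hk)⟩
  set F := F1 ∪ F2 with hFdef
  have hF : F.Finite := hF1.union hF2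
  set GG := {L | L ∈ y ∧ Cr Sp c0 L ∧ ∃ f ∈ F, |l c0 L - l c0 f| < 6} with hGG
  have hGfin : GG.Finite := fin_image G hc0D hF (hY.sub y hy) hFy
  -- the triples
  have main : ∀ x ∈ {x | x ∈ Y ∧ x ≠ y ∧ x ≠ z ∧ 10 < dY Sp x y z}, ∃ t : H × H × H,
      t ∈ F ×ˢ (GG ×ˢ GG) ∧ t.1 ∈ D ∧ t.2.1 ∈ D ∧ Nc t.1 t.2.1 ∧
      ∃ a ∈ x, a * t.1 * a⁻¹ = t.2.1 ∧ a * t.2.1 * a⁻¹ = t.2.2 := by
    rintro x ⟨hx, hxy, hxz, hd⟩
    -- first step
    have s1 : ∃ a ∈ x, ∃ b ∈ y, Cr Sp a b ∧ Cr Sp a c0 ∧ ∀ k : ℤ, 0 ≤ k → k ≤ 5 →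
        Cr Sp (a ^ k * b * (a ^ k)⁻¹) c0 := by
      obtain ⟨a, ha, b, hb, c, hc, hab, hac, hk⟩ := h1c x hx y hy z hz hxy hxz hd
      obtain ⟨g, hg, hgc⟩ := hY.cls z hz c0 hc0 c hc
      have hg' : g⁻¹ ∈ D := D.inv_mem hg
      have ha' : g⁻¹ * a * g⁻¹⁻¹ ∈ x := hY.conj x hx a ha g⁻¹ hg'
      have hb' : g⁻¹ * b * g⁻¹⁻¹ ∈ y := hY.conj y hy b hb g⁻¹ hg'
      have ha'D := hY.sub x hx _ ha'
      have hb'D := hY.sub y hy _ hb'
      have hcc : ∀ w, w ∈ D → Cr Sp w (g⁻¹ * c * g⁻¹⁻¹) → Cr Sp w c0 := by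
        intro w hw hwc
        rcases hgc with h | h
        · have e : g⁻¹ * c * g⁻¹⁻¹ = c0 := by rw [h]; group
          rwa [e] at hwc
        · have e : g⁻¹ * c * g⁻¹⁻¹ = c0⁻¹ := by rw [h]; group
          rw [e] at hwc
          exact cr_inv G hw hc0D hwc
      refine ⟨_, ha', _, hb', cr_conj G.toGF hg' hab, hcc _ ha'D (cr_conj G.toGF hg' hac),
        fun k hk0 hk5 => ?_⟩
      have e : (g⁻¹ * a * g⁻¹⁻¹) ^ k * (g⁻¹ * b * g⁻¹⁻¹) * ((g⁻¹ * a * g⁻¹⁻¹) ^ k)⁻¹ =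
          g⁻¹ * (a ^ k * b * (a ^ k)⁻¹) * g⁻¹⁻¹ := by
        rw [conj_zpow]
        group
      rw [e]
      have hak := D.zpow_mem (hY.sub x hx a ha) k
      refine hcc _ ?_ (cr_conj G.toGF hg' (hk k hk0 hk5))
      exact D.mul_mem (D.mul_mem hg' (D.mul_mem (D.mul_mem hak (hY.sub y hy b hb))
        (D.inv_mem hak))) (D.inv_mem hg')
    -- second step
    have s2 : ∃ a ∈ x, ∃ b ∈ y, b ∈ F ∧ Cr Sp a b ∧ Cr Sp a c0 ∧ ∀ k : ℤ, 0 ≤ k → k ≤ 5 →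
        Cr Sp (a ^ k * b * (a ^ k)⁻¹) c0 := by
      obtain ⟨a, ha, b, hb, hab, hac, hk⟩ := s1
      have hbD := hY.sub y hy b hb
      have hbc : Cr Sp b c0 := by
        have := hk 0 le_rfl (by norm_num)
        simpa using this
      obtain ⟨j, hj⟩ := hFy b hb (G.symm b hbD c0 hc0D hbc)
      have hg : c0 ^ j ∈ D := D.zpow_mem hc0D j
      have ec : c0 ^ j * c0 * (c0 ^ j)⁻¹ = c0 := by
        have : c0 ^ j * c0 = c0 * c0 ^ j := ((Commute.refl c0).zpow_left j).eq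
        rw [this]
        group
      refine ⟨_, hY.conj x hx a ha _ hg, _, hY.conj y hy b hb _ hg, hj, cr_conj G.toGF hg hab,
        ?_, fun k hk0 hk5 => ?_⟩
      · have := cr_conj G.toGF hg hac
        rwa [ec] at this
      · have e : (c0 ^ j * a * (c0 ^ j)⁻¹) ^ k * (c0 ^ j * b * (c0 ^ j)⁻¹) *
            ((c0 ^ j * a * (c0 ^ j)⁻¹) ^ k)⁻¹ =
            c0 ^ j * (a ^ k * b * (a ^ k)⁻¹) * (c0 ^ j)⁻¹ := by
          rw [conj_zpow]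
          group
        rw [e]
        have := cr_conj G.toGF hg (hk k hk0 hk5)
        rwa [ec] at this
    obtain ⟨a, ha, b, hb, hbF, hab, hac, hk⟩ := s2
    have haD := hY.sub x hx a ha
    have hbD := hY.sub y hy b hb
    -- the translates
    have hLy : ∀ k : ℤ, a ^ k * b * (a ^ k)⁻¹ ∈ y := fun k =>
      hY.conj y hy b hb _ (D.zpow_mem haD k)
    have hLD : ∀ k : ℤ, a ^ k * b * (a ^ k)⁻¹ ∈ D := fun k => hY.sub y hy _ (hLy k)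
    have hLa : ∀ k : ℤ, Cr Sp a (a ^ k * b * (a ^ k)⁻¹) := fun k => cr_zpow G.toGF haD hab k
    have hLl : ∀ k : ℤ, l a (a ^ k * b * (a ^ k)⁻¹) = l a b + k := fun k => l_zpow G haD hbD hab k
    have hLc : ∀ k : ℤ, 0 ≤ k → k ≤ 5 → Cr Sp c0 (a ^ k * b * (a ^ k)⁻¹) := fun k h0 h5 =>
      G.symm _ (hLD k) c0 hc0D (hk k h0 h5)
    have hNc : ∀ i j : ℤ, i ≠ j → Nc (a ^ i * b * (a ^ i)⁻¹) (a ^ j * b * (a ^ j)⁻¹) := by
      intro i j hij hcom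
      have := (G.distc a haD _ (hLD i) _ (hLD j) (hLa i) (hLa j) hcom).1
      rw [hLl, hLl] at this
      exact hij (by exact_mod_cast add_left_cancel this)
    have hSim : ∀ i j : ℤ, ¬ Cr Sp (a ^ i * b * (a ^ i)⁻¹) (a ^ j * b * (a ^ j)⁻¹) := fun i j =>
      hY.simple y hy _ (hLy i) _ (hLy j)
    have e0 : a ^ (0 : ℤ) * b * (a ^ (0 : ℤ))⁻¹ = b := by simp
    have e3 : a ^ (3 : ℤ) * b * (a ^ (3 : ℤ))⁻¹ = a ^ 3 * b * (a ^ 3)⁻¹ := by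
      rw [show (3 : ℤ) = ((3 : ℕ) : ℤ) by norm_num, zpow_natCast]
    have hcb : Cr Sp c0 b := by
      have := hLc 0 le_rfl (by norm_num)
      rwa [e0] at this
    have h63 := h6' y hy a haD c0 hc0D b hb hac hab hcb (by
      have := hLc 3 (by norm_num) (by norm_num)
      rwa [e3] at this)
    rw [← e3] at h63
    have hGG' : ∀ i : ℤ, 0 < i → i < 3 → a ^ i * b * (a ^ i)⁻¹ ∈ GG := by
      intro i hi0 hi3
      refine ⟨hLy i, hLc i hi0.le (by omega), b, hbF, ?_⟩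
      have hS : Sp (a ^ i * b * (a ^ i)⁻¹) (a ^ (0 : ℤ) * b * (a ^ (0 : ℤ))⁻¹)
          (a ^ (3 : ℤ) * b * (a ^ (3 : ℤ))⁻¹) := by
        refine (G.btw a haD _ (hLD 0) _ (hLD 3) _ (hLD i) (hLa 0) (hLa 3) (hLa i) (hSim i 0)
          (hSim i 3) (hNc i 0 (by omega)) (hNc i 3 (by omega))).2 ?_
        rw [hLl, hLl, hLl]
        have h1 : (0 : ℝ) < i := by exact_mod_cast hi0
        have h2 : (i : ℝ) < 3 := by exact_mod_cast hi3
        have h3 : l a b + ((0 : ℤ) : ℝ) - (l a b + i) < 0 := by push_cast; linarith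
        have h4 : 0 < l a b + ((3 : ℤ) : ℝ) - (l a b + i) := by push_cast; linarith
        exact mul_neg_of_neg_of_pos h3 h4
      have hS2 := (G.btw c0 hc0D _ (hLD 0) _ (hLD 3) _ (hLD i) (hLc 0 le_rfl (by norm_num))
        (hLc 3 (by norm_num) (by norm_num)) (hLc i hi0.le (by omega)) (hSim i 0) (hSim i 3)
        (hNc i 0 (by omega)) (hNc i 3 (by omega))).1 hS
      rw [e0] at hS2
      have h5 := abs_lt.1 h63
      rw [abs_lt]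
      rcases mul_neg_iff.1 hS2 with ⟨h7, h8⟩ | ⟨h7, h8⟩
      · constructor <;> linarith [h5.1, h5.2]
      · constructor <;> linarith [h5.1, h5.2]
    have ec1 : a * b * a⁻¹ = a ^ (1 : ℤ) * b * (a ^ (1 : ℤ))⁻¹ := by rw [zpow_one]
    have ec2 : a * (a ^ (1 : ℤ) * b * (a ^ (1 : ℤ))⁻¹) * a⁻¹ =
        a ^ (2 : ℤ) * b * (a ^ (2 : ℤ))⁻¹ := by
      rw [conj_mul]
      norm_num
    refine ⟨(b, a ^ (1 : ℤ) * b * (a ^ (1 : ℤ))⁻¹, a ^ (2 : ℤ) * b * (a ^ (2 : ℤ))⁻¹),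
      ⟨hbF, hGG' 1 (by norm_num) (by norm_num), hGG' 2 (by norm_num) (by norm_num)⟩, hbD, hLD 1,
      ?_, a, ha, ec1, ec2⟩
    have := hNc 0 1 (by norm_num)
    rwa [e0] at this
  have : Nonempty (H × H × H) := ⟨(1, 1, 1)⟩
  choose! t ht using main
  refine Set.Finite.of_injOn (f := t) (fun x hx => (ht x hx).1) ?_ (hF.prod (hGfin.prod hGfin))
  intro x hx x' hx' hxx
  obtain ⟨-, k1, k2, k3, a, ha, k4, k5⟩ := ht x hx
  obtain ⟨-, -, -, -, a', ha', k4', k5'⟩ := ht x' hx'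
  rw [← hxx] at k4' k5'
  have haD := hY.sub x hx.1 a ha
  have haD' := hY.sub x' hx'.1 a' ha'
  have hgD : a'⁻¹ * a ∈ D := D.mul_mem (D.inv_mem haD') haD
  have c1 : (t x).1 * (a'⁻¹ * a) = (a'⁻¹ * a) * (t x).1 := by
    have e : a * (t x).1 * a⁻¹ = a' * (t x).1 * a'⁻¹ := by rw [k4, k4']
    have e2 : a'⁻¹ * (a * (t x).1 * a⁻¹) * a = a'⁻¹ * (a' * (t x).1 * a'⁻¹) * a := by rw [e]
    have e3 : a'⁻¹ * (a * (t x).1 * a⁻¹) * a = a'⁻¹ * a * (t x).1 := by group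
    have e4 : a'⁻¹ * (a' * (t x).1 * a'⁻¹) * a = (t x).1 * (a'⁻¹ * a) := by group
    rw [← e4, ← e2, e3]
  have c2 : (a'⁻¹ * a) * (t x).2.1 = (t x).2.1 * (a'⁻¹ * a) := by
    have e : a * (t x).2.1 * a⁻¹ = a' * (t x).2.1 * a'⁻¹ := by rw [k5, k5']
    have e2 : a'⁻¹ * (a * (t x).2.1 * a⁻¹) * a = a'⁻¹ * (a' * (t x).2.1 * a'⁻¹) * a := by rw [e]
    have e3 : a'⁻¹ * (a * (t x).2.1 * a⁻¹) * a = a'⁻¹ * a * (t x).2.1 := by group
    have e4 : a'⁻¹ * (a' * (t x).2.1 * a'⁻¹) * a = (t x).2.1 * (a'⁻¹ * a) := by group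
    rw [← e3, e2, e4]
  have hone : a'⁻¹ * a = 1 := by
    by_contra hne
    exact k3 (G.trans _ k1 _ hgD _ k2 hne c1 c2)
  have haa : a = a' := by
    have := eq_of_inv_mul_eq_one hone
    exact this.symm
  subst haa
  exact class_eq hY hx.1 hx'.1 ha ha'

end Pool.Agent.Helper73.LN
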